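import Pool.Agent.J4H47.GC.Low2
import Pool.Agent.Y163.Idx

/-!
# From the squares of Betti numbers to full growth
-/

set_option autoImplicit false

open CategoryTheory AlgebraicGeometry Finset Module

universe u v

namespace Pool.Agent.J4H46.GC

open Pool.Agent.H914 VarClass Obj WeilCohomology Pool.Agent.H447 Pool.Agent.Y163
  Pool.Agent.W534 Pool.Agent.J4H47.GC

/-- exponential growth beats polynomials -/
theorem growth (P R : ℝ) (D B : ℕ) (Q : ℕ → ℝ) (hR : 0 ≤ R) (hRP : R < P)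
    (h : ∀ n : ℕ, (P ^ (n + 1)) ^ 2 ≤ (((2 * ((n + 1) * D) + 1 : ℕ) : ℝ) * ((n : ℝ) + 2) ^ B) * Q n) :
    ∃ n : ℕ, R ^ ((2 * n + 1) + 1) < Q n := by
  have hP : 0 < P := lt_of_le_of_lt hR hRP
  set r : ℝ := R / P with hr
  have hr0 : 0 ≤ r := div_nonneg hR hP.le
  have hr1 : r < 1 := (div_lt_one hP).2 hRP
  have hT := tendsto_pow_const_mul_const_pow_of_abs_lt_one (B + 1) (r := r) (by rw [abs_of_nonneg hr0]; exact hr1)
  have hC : (0 : ℝ) < 2 * D + 1 := by positivity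
  have hev := (hT.eventually (gt_mem_nhds (show (0 : ℝ) < 1 / (2 * D + 1) by positivity)))
  obtain ⟨N, hN⟩ := Filter.eventually_atTop.1 hev
  refine ⟨N, ?_⟩
  have h1 := hN (N + 2) (by omega)
  by_contra hcon
  push Not at hcon
  have h2 := h N
  have hm : (0 : ℝ) < (N : ℝ) + 2 := by positivity
  have h3 : R ^ ((2 * N + 1) + 1) ≤ r ^ (N + 2) * (P ^ (N + 1)) ^ 2 := by
    have e1 : R = r * P := by rw [hr]; field_simp
    have e2 : R ^ ((2 * N + 1) + 1) = r ^ (2 * N + 2) * (P ^ (N + 1)) ^ 2 := by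
      rw [e1, mul_pow, ← pow_mul]
      congr 2
      ring
    rw [e2]
    apply mul_le_mul_of_nonneg_right _ (by positivity)
    exact pow_le_pow_of_le_one hr0 hr1.le (by omega)
  have h4 : (((2 * ((N + 1) * D) + 1 : ℕ) : ℝ) * ((N : ℝ) + 2) ^ B) ≤ (2 * D + 1) * ((N : ℝ) + 2) ^ (B + 1) := by
    rw [pow_succ]
    have : (((2 * ((N + 1) * D) + 1 : ℕ) : ℝ)) ≤ (2 * D + 1) * ((N : ℝ) + 2) := by
      push_cast
      have hD : (0 : ℝ) ≤ D := Nat.cast_nonneg D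
      have hN' : (0 : ℝ) ≤ N := Nat.cast_nonneg N
      nlinarith
    calc (((2 * ((N + 1) * D) + 1 : ℕ) : ℝ) * ((N : ℝ) + 2) ^ B) ≤
          ((2 * D + 1) * ((N : ℝ) + 2)) * ((N : ℝ) + 2) ^ B := mul_le_mul_of_nonneg_right this (by positivity)
      _ = (2 * D + 1) * (((N : ℝ) + 2) ^ B * ((N : ℝ) + 2)) := by ring
  have hPP : (0 : ℝ) < (P ^ (N + 1)) ^ 2 := by positivity
  have h5 : (2 * D + 1 : ℝ) * ((N : ℝ) + 2) ^ (B + 1) * r ^ (N + 2) < 1 := by
    have h6 : (((N + 2 : ℕ) : ℝ)) ^ (B + 1) * r ^ (N + 2) < 1 / (2 * D + 1) := h1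
    push_cast at h6
    rw [lt_div_iff₀ hC] at h6
    linarith
  have h7 : (P ^ (N + 1)) ^ 2 < (P ^ (N + 1)) ^ 2 := by
    calc (P ^ (N + 1)) ^ 2 ≤ (((2 * ((N + 1) * D) + 1 : ℕ) : ℝ) * ((N : ℝ) + 2) ^ B) * Q N := h2
      _ ≤ (((2 * ((N + 1) * D) + 1 : ℕ) : ℝ) * ((N : ℝ) + 2) ^ B) * (r ^ (N + 2) * (P ^ (N + 1)) ^ 2) :=
          mul_le_mul_of_nonneg_left (hcon.trans h3) (by positivity)
      _ ≤ ((2 * D + 1) * ((N : ℝ) + 2) ^ (B + 1)) * (r ^ (N + 2) * (P ^ (N + 1)) ^ 2) :=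
          mul_le_mul_of_nonneg_right h4 (by positivity)
      _ = ((2 * D + 1 : ℝ) * ((N : ℝ) + 2) ^ (B + 1) * r ^ (N + 2)) * (P ^ (N + 1)) ^ 2 := by ring
      _ < 1 * (P ^ (N + 1)) ^ 2 := mul_lt_mul_of_pos_right h5 hPP
      _ = (P ^ (N + 1)) ^ 2 := one_mul _
  exact lt_irrefl _ h7

section

variable {k : Type u} [Field k] {𝒱 : VarClass k} {ops : CycleOps 𝒱} (W : WeilCohomology.{u, v} ops)

/-- the Poincaré polynomial of a power -/
theorem poincare_pw (hPP : S_PP.{u, v}) (X : 𝒱.Obj) (t : ℝ) (n : ℕ) :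
    poincare W (pw X n) t = poincare W X t ^ (n + 1) := by
  induction n with
  | zero => rw [zero_add, pow_one]; rfl
  | succ n ih =>
    have h := hPP W X (pw X n) t
    rw [ih] at h
    calc poincare W (pw X (n + 1)) t = poincare W (X.prod (pw X n)) t := rfl
      _ = poincare W X t ^ (n + 1 + 1) := by rw [h]; ring

/-- the ranks on the square of a power -/
theorem numRank_sq (W : WeilCohomology.{u, v} ops) (X : 𝒱.Obj) (n c : ℕ) (hc : c ≤ (pw X (2 * n + 1)).dim) :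
    numRank ops (sq X n) c = numRank ops (pw X (2 * n + 1)) c := by
  have hd : (pw X (2 * n + 1)).dim = (sq X n).dim := by
    rw [dim_sq, dim_pw]; push_cast; ring
  have e : sq X n ≅ pw X (2 * n + 1) :=
    pwIso X n n ≪≫ eqToIso (by rw [show n + 1 + n = 2 * n + 1 by ring])
  rw [numRank_eq (W := W) (by rw [← hd]; exact hc), numRank_eq (W := W) hc, ← hd]
  exact kRank_iso e hd _ _

/-- (FG) -/
theorem t_FG : S_PP.{u, v} → S_FG.{u, v} := by
  intro hPP k _ 𝒱 ops W X B hB t ht R hR hRP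
  obtain ⟨n, hn⟩ := growth (poincare W X t) R X.dim B (fun n => numPoincare ops (pw X (2 * n + 1)) t) hR hRP (by
    intro n
    rw [← poincare_pw W hPP]
    have hdim : (pw X n).dim = (n + 1) * X.dim := dim_pw X n
    have hdim2 : (pw X (2 * n + 1)).dim = 2 * ((n + 1) * X.dim) := by rw [dim_pw]; push_cast; ring
    have hCS := sq_sum_le_card_mul_sum_sq (s := range (2 * (pw X n).dim + 1))
      (f := fun j => (finrank W.K (W.gr (pw X n) j) : ℝ) * t ^ j)
    rw [card_range] at hCS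
    refine hCS.trans ?_
    rw [hdim, mul_assoc]
    apply mul_le_mul_of_nonneg_left _ (Nat.cast_nonneg _)
    show _ ≤ ((n : ℝ) + 2) ^ B * numPoincare ops (pw X (2 * n + 1)) t
    unfold numPoincare
    rw [mul_sum, hdim2]
    apply sum_le_sum
    intro c hc
    rw [mem_range] at hc
    have h1 := hB n c (by rw [hdim]; omega)
    rw [numRank_sq W X n c (by rw [hdim2]; omega)] at h1
    have h2 : ((finrank W.K (W.gr (pw X n) c) : ℝ)) ^ 2 ≤ (numRank ops (pw X (2 * n + 1)) c : ℝ) * ((n : ℝ) + 2) ^ B := by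
      exact_mod_cast h1
    calc ((finrank W.K (W.gr (pw X n) c) : ℝ) * t ^ c) ^ 2 =
          ((finrank W.K (W.gr (pw X n) c) : ℝ)) ^ 2 * t ^ (2 * c) := by ring
      _ ≤ ((numRank ops (pw X (2 * n + 1)) c : ℝ) * ((n : ℝ) + 2) ^ B) * t ^ (2 * c) :=
          mul_le_mul_of_nonneg_right h2 (by positivity)
      _ = ((n : ℝ) + 2) ^ B * ((numRank ops (pw X (2 * n + 1)) c : ℝ) * t ^ (2 * c)) := by ring)
  exact ⟨2 * n + 1, hn⟩

end

end Pool.Agent.J4H46.GC
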