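import Pool.Agent.J4H47.GC.Low2

/-!
# Poincaré duality for the Betti numbers
-/

set_option autoImplicit false

open Module

universe u v

namespace Pool.Agent.J4H46.GC

open Pool.Agent.H914 VarClass Obj WeilCohomology

/-- the pairing of two complementary degrees is nondegenerate -/
theorem pd_le {K : Type*} [Field K] {A : Type*} [Ring A] [Algebra K A] {gr : ℕ → Submodule K A} {n : ℕ}
    {tr : A →ₗ[K] K} (h : IsPoincareAlgebra gr n tr) (c e : ℕ) (hce : c + e = 2 * n) :
    finrank K (gr c) ≤ finrank K (gr e) := by
  have := h.finite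
  let f : gr c →ₗ[K] Module.Dual K (gr e) :=
    { toFun := fun a => (tr ∘ₗ LinearMap.mulLeft K (a : A)) ∘ₗ (gr e).subtype
      map_add' := fun a b => by ext x; simp [add_mul]
      map_smul' := fun r a => by ext x; simp }
  have hf : Function.Injective f := by
    rw [← LinearMap.ker_eq_bot, Submodule.eq_bot_iff]
    intro a ha
    have ha' : ∀ b ∈ gr e, tr ((a : A) * b) = 0 := by
      intro b hb
      have := LinearMap.congr_fun (LinearMap.mem_ker.1 ha) ⟨b, hb⟩
      simpa [f] using this
    apply Subtype.ext
    apply h.nondeg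
    intro b
    have hb : b ∈ ⨆ i, gr i := by rw [h.isInternal.submodule_iSup_eq_top]; trivial
    induction hb using Submodule.iSup_induction' with
    | mem i x hx =>
      by_cases hi : i = e
      · subst hi; exact ha' x hx
      · exact h.tr_eq_zero (h.mul_mem a.2 hx) (by omega)
    | zero => simp
    | add x y _ _ hx hy => rw [mul_add, map_add, hx, hy, add_zero]
  calc finrank K (gr c) ≤ finrank K (Module.Dual K (gr e)) := LinearMap.finrank_le_finrank_of_injective hf
    _ = finrank K (gr e) := Subspace.dual_finrank_eq

/-- (PD) -/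
theorem t_PD : Pool.Agent.J4H47.GC.S_PD.{u, v} := by
  intro k _ 𝒱 ops W X c e hce
  exact le_antisymm (pd_le (W.isPoincareAlgebra X) c e hce)
    (pd_le (W.isPoincareAlgebra X) e c (by rw [add_comm]; exact hce))

end Pool.Agent.J4H46.GC
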